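import Pool.Agent.H889R3.Tribes4

set_option autoImplicit false

namespace Pool.Agent.Results.MP_5036fd_co.TribesRefutation

/-- Probability of the event `P` under the uniform distribution on `{0,1}^n`. -/
noncomputable def prob {n : ℕ} (P : (Fin n → Bool) → Prop) : ℝ :=
  (Nat.card {x : Fin n → Bool // P x} : ℝ) / 2 ^ n

/-- `μ(f) = Pr[f(x) = 1]` -/
noncomputable def density {n : ℕ} (f : (Fin n → Bool) → Bool) : ℝ := prob (fun x => f x = true)

/-- the influence `I_i(f) = Pr[f(x) ≠ f(x ⊕ e_i)]` of the coordinate `i` -/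
noncomputable def influence {n : ℕ} (f : (Fin n → Bool) → Bool) (i : Fin n) : ℝ :=
  prob (fun x => f x ≠ f (Function.update x i (!x i)))

/-- the total influence `I(f)` -/
noncomputable def totalInfluence {n : ℕ} (f : (Fin n → Bool) → Bool) : ℝ := ∑ i, influence f i

/-- `g(x)` is determined by the coordinates `x_j`, `j ∈ J` -/
def DependsOnlyOn {n : ℕ} (g : (Fin n → Bool) → Bool) (J : Finset (Fin n)) : Prop :=
  ∀ x y : Fin n → Bool, (∀ j ∈ J, x j = y j) → g x = g y

/-- The statement asked for in Q1 for the constant `C`, with `c M / ε` in place of `M / ε` in the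
exponent (Q1 is the case `c = 1`). -/
def JuntaBound (c C : ℝ) : Prop :=
  ∀ M ε : ℝ, 0 < M → 0 < ε → ∀ n : ℕ, 1 ≤ n → ∀ f : (Fin n → Bool) → Bool, 0 < density f →
    totalInfluence f ≤ 2 * density f * (Real.logb 2 (1 / density f) + M) →
    ∃ (g : (Fin n → Bool) → Bool) (J : Finset (Fin n)), DependsOnlyOn g J ∧
      (J.card : ℝ) ≤ C * Real.logb 2 (1 / density f) * 2 ^ (c * (M / ε)) ∧
      prob (fun x => f x ≠ g x) ≤ ε * density f

open Pool.Agent.H889R3.Tribes in
theorem strong (c : ℝ) (hc1 : c < 1 / Real.log 2) (C : ℝ) (hC : 0 < C) (η : ℝ) (hη : 0 < η) :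
    ∃ M ε : ℝ, 0 < M ∧ 0 < ε ∧ ε < 1 ∧ ∃ n : ℕ, 1 ≤ n ∧ ∃ f : (Fin n → Bool) → Bool,
      0 < density f ∧ density f < η ∧
      totalInfluence f ≤ 2 * density f * (Real.logb 2 (1 / density f) + M) ∧
      ∀ (g : (Fin n → Bool) → Bool) (J : Finset (Fin n)), DependsOnlyOn g J →
        prob (fun x => f x ≠ g x) ≤ ε * density f →
        C * Real.logb 2 (1 / density f) * 2 ^ (c * (M / ε)) < (J.card : ℝ) := by
  have hL : 0 < Real.log 2 := Real.log_pos (by norm_num)
  have hL1 : Real.log 2 < 1 := by linarith [Real.log_two_lt_d9]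
  set c' := max c 1 with hc'
  have hc'0 : 0 < c' := lt_of_lt_of_le one_pos (le_max_right _ _)
  have hc'1 : c' * Real.log 2 < 1 := by
    have : c' < 1 / Real.log 2 := by
      apply max_lt hc1
      rw [lt_div_iff₀ hL]; linarith
    rwa [lt_div_iff₀ hL] at this
  obtain ⟨M, ε, hM, hε, hε1, n, hn, F, h1, h2, h3, h4⟩ := main c' C (min η 1) hc'0 hc'1 hC
    (by positivity)
  have hd : density F = (ones F : ℝ) / 2 ^ n := by
    rw [density, prob, ones, Nat.card_eq_fintype_card, Fintype.card_subtype]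
  have hi : ∀ i, influence F i = (sens F i : ℝ) / 2 ^ n := by
    intro i
    rw [influence, prob, sens, Nat.card_eq_fintype_card, Fintype.card_subtype]
    rfl
  have hdis : ∀ g, prob (fun x => F x ≠ g x) = (dis F g : ℝ) / 2 ^ n := by
    intro g
    rw [prob, dis, Nat.card_eq_fintype_card, Fintype.card_subtype]
  refine ⟨M, ε, hM, hε, hε1, n, hn, F, ?_, ?_, ?_, ?_⟩
  · rw [hd]; exact h1
  · rw [hd]; exact lt_of_lt_of_le h2 (min_le_left _ _)
  · rw [hd, totalInfluence]
    simp only [hi]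
    exact h3
  · intro g J hg hp
    rw [hdis, hd] at hp
    have h5 := h4 g J hg hp
    rw [← hd] at h5
    refine lt_of_le_of_lt ?_ h5
    have hlog : 0 ≤ Real.logb 2 (1 / density F) := by
      apply Real.logb_nonneg (by norm_num)
      rw [hd, le_div_iff₀ h1]
      linarith [lt_of_lt_of_le h2 (min_le_right η 1)]
    apply mul_le_mul_of_nonneg_left _ (mul_nonneg hC.le hlog)
    apply Real.rpow_le_rpow_of_exponent_le (by norm_num)
    exact mul_le_mul_of_nonneg_right (le_max_left _ _) (by positivity)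

/-- **Q1 is false**, and it stays false for arbitrarily sparse `f`, for some `ε < 1`, and with
`M / ε` replaced by `c M / ε` for any constant `c < 1 / ln 2 = 1.44...`.
First part: no constant `C` works in Q1.  Second part: for every `c < 1 / ln 2`, `C > 0` and
`η > 0` there are `M > 0`, `0 < ε < 1`, `n` and `f` with `0 < μ(f) < η` and
`I(f) ≤ 2 μ (log(1/μ) + M)` such that every `g` with `Pr[f ≠ g] ≤ ε μ` depends on more than
`C log(1/μ) 2^{c M / ε}` coordinates. -/
theorem result :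
    (¬ ∃ C : ℝ, 0 < C ∧ JuntaBound 1 C) ∧
    ∀ c : ℝ, c < 1 / Real.log 2 → ∀ C : ℝ, 0 < C → ∀ η : ℝ, 0 < η →
      ∃ M ε : ℝ, 0 < M ∧ 0 < ε ∧ ε < 1 ∧ ∃ n : ℕ, 1 ≤ n ∧ ∃ f : (Fin n → Bool) → Bool,
        0 < density f ∧ density f < η ∧
        totalInfluence f ≤ 2 * density f * (Real.logb 2 (1 / density f) + M) ∧
        ∀ (g : (Fin n → Bool) → Bool) (J : Finset (Fin n)), DependsOnlyOn g J →
          prob (fun x => f x ≠ g x) ≤ ε * density f →
          C * Real.logb 2 (1 / density f) * 2 ^ (c * (M / ε)) < (J.card : ℝ) := by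
  refine ⟨?_, fun c hc C hC η hη => strong c hc C hC η hη⟩
  rintro ⟨C, hC, h⟩
  have hL : 0 < Real.log 2 := Real.log_pos (by norm_num)
  have hL1 : Real.log 2 < 1 := by linarith [Real.log_two_lt_d9]
  obtain ⟨M, ε, hM, hε, -, n, hn, f, h1, -, h2, h3⟩ := strong 1 (by
    rw [lt_div_iff₀ hL]; linarith) C hC 1 one_pos
  obtain ⟨g, J, hg, hJ, hp⟩ := h M ε hM hε n hn f h1 h2
  exact absurd (h3 g J hg hp) (not_lt.2 hJ)

end Pool.Agent.Results.MP_5036fd_co.TribesRefutation
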